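import Pool.Agent.Helper84.TL.Defs

/-!
# Project TL, module TL-B: inverse moments of the binomial distribution
-/

set_option autoImplicit false
set_option linter.unusedVariables false

namespace Pool.Agent.Helper84.TL

open Finset Pool.Agent.Lead.TB

section B

variable {α : Type} [DecidableEq α]

theorem h4_Eb_card (X : Finset α) (τ : ℝ) (f : ℕ → ℝ) :
    Eb X τ (fun A => f A.card) =
      ∑ k ∈ range (X.card + 1), (X.card.choose k : ℝ) * τ ^ k * (1 - τ) ^ (X.card - k) * f k := by
  unfold Eb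
  have h := Finset.sum_powerset_apply_card
    (fun k => τ ^ k * (1 - τ) ^ (X.card - k) * f k) (x := X)
  refine h.trans ?_
  refine Finset.sum_congr rfl fun k _ => ?_
  rw [nsmul_eq_mul]
  ring

theorem h4_choose (m k r : ℕ) (hk : k ≤ m) :
    m.choose k * (m + 1).ascFactorial r = (m + r).choose (k + r) * (k + 1).ascFactorial r := by
  have h1 := Nat.choose_mul_factorial_mul_factorial hk
  have h2 := Nat.choose_mul_factorial_mul_factorial (Nat.add_le_add_right hk r)
  have h3 := Nat.factorial_mul_ascFactorial m r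
  have h4 := Nat.factorial_mul_ascFactorial k r
  have e : m + r - (k + r) = m - k := by omega
  rw [e] at h2
  have hpos : 0 < k.factorial * (m - k).factorial := Nat.mul_pos (Nat.factorial_pos _)
    (Nat.factorial_pos _)
  refine Nat.eq_of_mul_eq_mul_left hpos ?_
  calc k.factorial * (m - k).factorial * (m.choose k * (m + 1).ascFactorial r)
      = (m.choose k * k.factorial * (m - k).factorial) * (m + 1).ascFactorial r := by ring
    _ = (m + r).factorial := by rw [h1, h3]
    _ = (m + r).choose (k + r) * (k + r).factorial * (m - k).factorial := h2.symm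
    _ = k.factorial * (m - k).factorial * ((m + r).choose (k + r) * (k + 1).ascFactorial r) := by
        rw [← h4]; ring

theorem h4_binom (m : ℕ) (τ : ℝ) :
    ∑ k ∈ range (m + 1), (m.choose k : ℝ) * τ ^ k * (1 - τ) ^ (m - k) = 1 := by
  have h := (Commute.all τ (1 - τ)).add_pow m
  rw [add_sub_cancel, one_pow] at h
  refine Eq.trans (Finset.sum_congr rfl fun k _ => ?_) h.symm
  ring

/-- The sum without the first `r` terms. -/
theorem h4_shift (m r : ℕ) (τ : ℝ) :
    ∑ k ∈ range (m + 1), ((m + r).choose (k + r) : ℝ) * τ ^ (k + r) * (1 - τ) ^ (m - k) =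
      1 - ∑ k ∈ range r, ((m + r).choose k : ℝ) * τ ^ k * (1 - τ) ^ (m + r - k) := by
  have h := h4_binom (m + r) τ
  have e : m + r + 1 = r + (m + 1) := by ring
  rw [e, Finset.sum_range_add] at h
  refine Eq.trans ?_ (eq_sub_of_add_eq' h)
  refine Finset.sum_congr rfl fun k _ => ?_
  have e1 : m + r - (r + k) = m - k := by omega
  rw [e1, add_comm r k]

theorem h4_asc (X : Finset α) {τ : ℝ} (h0 : τ ≠ 0) (r : ℕ) :
    Eb X τ (fun A => 1 / ((A.card + 1).ascFactorial r : ℝ)) =
      (1 / (((X.card + 1).ascFactorial r : ℝ) * τ ^ r)) *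
        (1 - ∑ k ∈ range r, ((X.card + r).choose k : ℝ) * τ ^ k * (1 - τ) ^ (X.card + r - k)) := by
  rw [h4_Eb_card X τ (fun k => 1 / ((k + 1).ascFactorial r : ℝ)), ← h4_shift, Finset.mul_sum]
  refine Finset.sum_congr rfl fun k hk => ?_
  have hk' : k ≤ X.card := by
    have := Finset.mem_range.1 hk
    omega
  have h := h4_choose X.card k r hk'
  have h' : (X.card.choose k : ℝ) * ((X.card + 1).ascFactorial r : ℝ) =
      ((X.card + r).choose (k + r) : ℝ) * ((k + 1).ascFactorial r : ℝ) := by exact_mod_cast h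
  have p1 : ((X.card + 1).ascFactorial r : ℝ) ≠ 0 := by
    have := Nat.ascFactorial_pos (X.card) r
    positivity
  have p2 : ((k + 1).ascFactorial r : ℝ) ≠ 0 := by
    have := Nat.ascFactorial_pos k r
    positivity
  have p3 : τ ^ r ≠ 0 := pow_ne_zero _ h0
  rw [pow_add]
  field_simp
  linear_combination ((1 - τ) ^ (X.card - k)) * h'

theorem Eb_asc (X : Finset α) {τ : ℝ} (h0 : 0 < τ) (h1 : τ ≤ 1) (r : ℕ) :
    Eb X τ (fun A => 1 / ((A.card + 1).ascFactorial r : ℝ)) ≤
      1 / (((X.card + 1).ascFactorial r : ℝ) * τ ^ r) := by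
  rw [h4_asc X h0.ne' r]
  refine mul_le_of_le_one_right (by positivity) ?_
  have h : 0 ≤ ∑ k ∈ range r, ((X.card + r).choose k : ℝ) * τ ^ k *
      (1 - τ) ^ (X.card + r - k) := by
    refine Finset.sum_nonneg fun k _ => ?_
    have : 0 ≤ 1 - τ := by linarith
    positivity
  linarith

theorem Eb_one (X : Finset α) {τ : ℝ} (h0 : τ ≠ 0) :
    Eb X τ (fun A => 1 / (1 + (A.card : ℝ))) =
      (1 - (1 - τ) ^ (X.card + 1)) / ((X.card + 1) * τ) := by
  have h := h4_asc X h0 1
  simp only [Nat.ascFactorial_succ, Nat.ascFactorial_zero, Finset.sum_range_one, pow_zero,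
    Nat.choose_zero_right, pow_one] at h
  push_cast at h
  simp only [mul_one, one_mul, add_zero] at h
  have e : (fun A : Finset α => 1 / (1 + (A.card : ℝ))) = fun A => 1 / ((A.card : ℝ) + 1) := by
    funext A
    rw [add_comm]
  rw [e, h]
  field_simp

theorem Eb_two (X : Finset α) {τ : ℝ} (h0 : τ ≠ 0) :
    ((X.card : ℝ) + 1) * τ * Eb X τ (fun A => 1 / (2 + (A.card : ℝ))) =
      1 - (1 - (1 - τ) ^ (X.card + 2)) / ((X.card + 2) * τ) := by
  have key : ∀ m : ℕ, ∑ k ∈ range (m + 1), (m.choose k : ℝ) * τ ^ k * (1 - τ) ^ (m - k) *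
      (1 / (1 + (k : ℝ))) = (1 - (1 - τ) ^ (m + 1)) / ((m + 1) * τ) := by
    intro m
    have h := Eb_one (Finset.range m) h0
    rw [h4_Eb_card (Finset.range m) τ (fun k => 1 / (1 + (k : ℝ))), Finset.card_range] at h
    exact h
  rw [h4_Eb_card X τ (fun k => 1 / (2 + (k : ℝ)))]
  have h1 := key (X.card + 1)
  have h2 := h4_binom (X.card + 1) τ
  have e : (1 - (1 - τ) ^ (X.card + 1 + 1)) / (((X.card + 1 : ℕ) + 1 : ℝ) * τ) =
      (1 - (1 - τ) ^ (X.card + 2)) / ((X.card + 2) * τ) := by
    push_cast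
    congr 2
    ring
  rw [← e, ← h1]
  refine Eq.trans ?_ (congrArg (fun t => t - _) h2)
  rw [← Finset.sum_sub_distrib, Finset.sum_range_succ' _ (X.card + 1), Finset.mul_sum]
  simp only [Nat.cast_zero, add_zero, div_one, mul_one, sub_self]
  refine Finset.sum_congr rfl fun k hk => ?_
  have h3 : ((X.card : ℝ) + 1) * (X.card.choose k : ℝ) =
      ((X.card + 1).choose (k + 1) : ℝ) * ((k : ℝ) + 1) := by
    exact_mod_cast Nat.add_one_mul_choose_eq X.card k
  have e1 : X.card + 1 - (k + 1) = X.card - k := by omega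
  rw [e1, pow_succ]
  have p1 : (2 + (k : ℝ)) ≠ 0 := by positivity
  have p2 : (1 + ((k + 1 : ℕ) : ℝ)) ≠ 0 := by positivity
  have e2 : (1 + ((k + 1 : ℕ) : ℝ)) = 2 + (k : ℝ) := by push_cast; ring
  rw [e2]
  field_simp
  linear_combination (1 - τ) ^ (X.card - k) * h3

end B

end Pool.Agent.Helper84.TL
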